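import Mathlib

/-!
# Prefix palindromic length of the Fibonacci word

We determine `λ = limsup PPL_f(n) / ln n = 1 / (3 ln φ)`, `φ` the golden ratio.

*Lower bound.*  Let `h(n)` be the output of the 6-state automaton `dl`, `wt` reading the
Zeckendorf digits of `n`.  Pairs of positions `U < V` with `f(U..V]` a palindrome desubstitute
through six relations (`Rel`, `desub`), and a finite table (`Bd`, `tab`) shows that
`h(V) - h(U) ≤ 1` for every palindromic factor.  Hence `PPL_f(n) ≥ h(n)` (`PPL_ge`), and `h`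
gains one unit per three digits on `100100...100`.

*Upper bound.*  Each `n + 1` in an explicit set `S_t` (`InS`) either has `PPL_f(n) ≤ 8` or lies in
`S_(t-3)` or is the end of a palindromic factor that starts at some `n'` with
`n' + 1` in `S_(t-3)` (`InS_step`).
-/

set_option autoImplicit false

open Filter

namespace Pool.Agent.Results.MP_3353e5_co.LambdaValue

/-- The two letters `a` and `b`. -/
inductive Letter
  | a
  | b
deriving DecidableEq

/-- The images of the letters under the Fibonacci morphism `a ↦ ab`, `b ↦ a`. -/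
def phiLetter : Letter → List Letter
  | .a => [.a, .b]
  | .b => [.a]

/-- The Fibonacci morphism on finite words. -/
def phi (w : List Letter) : List Letter := w.flatMap phiLetter

/-- The word `φ^k(a)`. -/
def W (k : ℕ) : List Letter := phi^[k] [.a]

/-- The infinite Fibonacci word, the limit of the words `φ^k(a)`: `fibWord i` is the letter
`f_{i+1}` (letters numbered from `1` as in the problem). -/
def fibWord (i : ℕ) : Letter := (W (i + 1)).getD i .a

/-- The word formed by the first `n` letters of `u`. -/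
def pre (u : ℕ → Letter) (n : ℕ) : List Letter := (List.range n).map u

/-- A palindrome: a nonempty word equal to its reversal. -/
def IsPal (w : List Letter) : Prop := w ≠ [] ∧ w.reverse = w

/-- The prefix palindromic length `PPL_u(n)`: least number of palindromes whose concatenation is
the word of the first `n` letters of `u`. -/
noncomputable def PPL (u : ℕ → Letter) (n : ℕ) : ℕ :=
  sInf {k | ∃ ps : List (List Letter), ps.length = k ∧ (∀ p ∈ ps, IsPal p) ∧
    ps.flatten = pre u n}

/-! ## The words `W k` -/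

lemma phi_append (u v : List Letter) : phi (u ++ v) = phi u ++ phi v := by
  simp [phi]

lemma W_succ (k : ℕ) : W (k + 1) = phi (W k) := by
  simp only [W, Function.iterate_succ_apply']

lemma W_add_two (k : ℕ) : W (k + 2) = W (k + 1) ++ W k := by
  induction k with
  | zero => rfl
  | succ k ih =>
    rw [W_succ (k + 2)]
    nth_rewrite 1 [ih]
    rw [phi_append, ← W_succ, ← W_succ]

lemma W_length (k : ℕ) : (W k).length = Nat.fib (k + 2) := by
  induction k using Nat.twoStepInduction with
  | zero => rfl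
  | one => rfl
  | more k ih1 ih2 =>
    rw [W_add_two, List.length_append, ih2, ih1, Nat.fib_add_two (n := k + 2)]
    ring

lemma W_succ_append (k : ℕ) : ∃ v, W (k + 1) = W k ++ v := by
  cases k with
  | zero => exact ⟨[.b], rfl⟩
  | succ k => exact ⟨W k, W_add_two k⟩

lemma W_le_append {k l : ℕ} (h : k ≤ l) : ∃ v, W l = W k ++ v := by
  induction l, h using Nat.le_induction with
  | base => exact ⟨[], by simp⟩
  | succ l _ ih =>
    obtain ⟨v, hv⟩ := ih
    obtain ⟨v', hv'⟩ := W_succ_append l
    exact ⟨v ++ v', by rw [hv', hv, List.append_assoc]⟩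

lemma getD_append_left {u v : List Letter} {i : ℕ} {d : Letter} (h : i < u.length) :
    (u ++ v).getD i d = u.getD i d := by
  rw [List.getD_append _ _ _ _ h]

lemma lt_fib_add_three (i : ℕ) : i < Nat.fib (i + 3) := by
  have := Nat.le_fib_add_one (i + 3)
  have := Nat.fib_mono (show 2 ≤ i + 3 by omega)
  induction i with
  | zero => decide
  | succ i ih =>
    have h1 := Nat.le_fib_add_one (i + 3)
    have h2 := Nat.fib_mono (show 2 ≤ i + 3 by omega)
    have h3 := Nat.le_fib_add_one (i + 4)
    have h4 : Nat.fib (i + 4) = Nat.fib (i + 2) + Nat.fib (i + 3) := Nat.fib_add_two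
    have h5 : 0 < Nat.fib (i + 2) := Nat.fib_pos.2 (by omega)
    have h6 := ih (by omega) (by omega)
    show i + 1 < Nat.fib (i + 4)
    omega

lemma W_getD {k i : ℕ} (h : i < Nat.fib (k + 2)) : (W k).getD i .a = fibWord i := by
  unfold fibWord
  rcases le_total k (i + 1) with hk | hk
  · obtain ⟨v, hv⟩ := W_le_append hk
    rw [hv, getD_append_left (by rwa [W_length])]
  · obtain ⟨v, hv⟩ := W_le_append hk
    rw [hv, getD_append_left (by rw [W_length]; exact lt_fib_add_three i)]

lemma length_pre (u : ℕ → Letter) (n : ℕ) : (pre u n).length = n := by simp [pre]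

lemma pre_succ (u : ℕ → Letter) (n : ℕ) : pre u (n + 1) = pre u n ++ [u n] := by
  simp [pre, List.range_succ]

lemma pre_W (k : ℕ) : pre fibWord (Nat.fib (k + 2)) = W k := by
  apply List.ext_getElem
  · rw [length_pre, W_length]
  · intro i h1 h2
    rw [length_pre] at h1
    have := W_getD h1
    rw [List.getD_eq_getElem _ _ h2] at this
    simp [pre, this]

lemma pre_append {u : ℕ → Letter} {m n : ℕ} (h : m ≤ n) : ∃ v, pre u n = pre u m ++ v := by
  induction n, h using Nat.le_induction with
  | base => exact ⟨[], by simp⟩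
  | succ n _ ih =>
    obtain ⟨v, hv⟩ := ih
    exact ⟨v ++ [u n], by rw [pre_succ, hv, List.append_assoc]⟩

/-- The length of the image under `φ` of the word of the first `m` letters of `f`. -/
def e (m : ℕ) : ℕ := (phi (pre fibWord m)).length

lemma phi_pre (m : ℕ) : phi (pre fibWord m) = pre fibWord (e m) := by
  obtain ⟨k, hk⟩ : ∃ k, m ≤ Nat.fib (k + 2) := ⟨m + 1, (lt_fib_add_three m).le⟩
  obtain ⟨v, hv⟩ := pre_append (u := fibWord) hk
  have h1 : pre fibWord (Nat.fib (k + 3)) = phi (pre fibWord m) ++ phi v := by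
    rw [pre_W (k + 1), W_succ, ← pre_W k, hv, phi_append]
  have h2 : e m ≤ Nat.fib (k + 3) := by
    have := congrArg List.length h1
    rw [length_pre, List.length_append] at this
    unfold e
    omega
  obtain ⟨v', hv'⟩ := pre_append (u := fibWord) h2
  rw [hv'] at h1
  have h3 : (pre fibWord (e m)).length = (phi (pre fibWord m)).length := by
    rw [length_pre]; rfl
  exact (List.append_inj h1 h3).1.symm

lemma e_zero : e 0 = 0 := rfl

lemma e_succ (m : ℕ) : e (m + 1) = e m + (phiLetter (fibWord m)).length := by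
  unfold e
  rw [pre_succ, phi_append, List.length_append]
  simp [phi]

lemma pre_e_succ (m : ℕ) :
    pre fibWord (e (m + 1)) = pre fibWord (e m) ++ phiLetter (fibWord m) := by
  rw [← phi_pre, pre_succ, phi_append, ← phi_pre]
  simp [phi]

lemma getElem_pre (u : ℕ → Letter) (n i : ℕ) (h : i < (pre u n).length) :
    (pre u n)[i] = u i := by
  simp [pre]

lemma fib_e_add (m i : ℕ) (h : i < (phiLetter (fibWord m)).length) :
    fibWord (e m + i) = (phiLetter (fibWord m))[i] := by
  have h1 : e m + i < (pre fibWord (e (m + 1))).length := by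
    rw [length_pre, e_succ]; omega
  have h2 := getElem_pre fibWord (e (m + 1)) (e m + i) h1
  rw [← h2]
  have h3 : e m + i < (pre fibWord (e m) ++ phiLetter (fibWord m)).length := by
    rw [List.length_append, length_pre]; omega
  have h4 : (pre fibWord (e (m + 1)))[e m + i] =
      (pre fibWord (e m) ++ phiLetter (fibWord m))[e m + i] := by
    congr 1
    exact pre_e_succ m
  rw [h4, List.getElem_append_right (by rw [length_pre]; omega)]
  congr 1
  rw [length_pre]; omega

lemma letter_cases (x : Letter) : x = .a ∨ x = .b := by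
  cases x <;> simp

lemma f_e (m : ℕ) : fibWord (e m) = .a := by
  have h : 0 < (phiLetter (fibWord m)).length := by
    cases fibWord m <;> decide
  have := fib_e_add m 0 h
  rw [add_zero] at this
  rw [this]
  rcases letter_cases (fibWord m) with h' | h' <;> simp [h', phiLetter]

lemma e_succ_a {m : ℕ} (h : fibWord m = .a) : e (m + 1) = e m + 2 := by
  rw [e_succ, h]; rfl

lemma e_succ_b {m : ℕ} (h : fibWord m = .b) : e (m + 1) = e m + 1 := by
  rw [e_succ, h]; rfl

lemma f_e_one {m : ℕ} (h : fibWord m = .a) : fibWord (e m + 1) = .b := by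
  have h1 : 1 < (phiLetter (fibWord m)).length := by rw [h]; decide
  rw [fib_e_add m 1 h1]
  simp [h, phiLetter]

lemma e_lt_succ (m : ℕ) : e m < e (m + 1) := by
  rcases letter_cases (fibWord m) with h | h
  · rw [e_succ_a h]; omega
  · rw [e_succ_b h]; omega

lemma e_strictMono : StrictMono e := strictMono_nat_of_lt_succ e_lt_succ


/-- Every position is `e u + σ` with `σ ∈ {0, 1}`, and `σ = 1` only if `f u = a`. -/
lemma exists_digit (n : ℕ) :
    ∃ (u : ℕ) (σ : Bool), n = e u + σ.toNat ∧ (σ = true → fibWord u = .a) := by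
  induction n with
  | zero => exact ⟨0, false, rfl, by simp⟩
  | succ n ih =>
    obtain ⟨u, σ, hn, hσ⟩ := ih
    cases σ with
    | false =>
      rcases letter_cases (fibWord u) with h | h
      · exact ⟨u, true, by rw [hn]; rfl, fun _ => h⟩
      · refine ⟨u + 1, false, ?_, by simp⟩
        rw [e_succ_b h, hn]; simp
    | true =>
      have h := hσ rfl
      refine ⟨u + 1, false, ?_, by simp⟩
      rw [e_succ_a h, hn]; simp

lemma no_bb {m : ℕ} (h : fibWord m = .b) : fibWord (m + 1) = .a := by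
  obtain ⟨u, σ, hn, hσ⟩ := exists_digit m
  cases σ with
  | false => simp at hn; rw [hn, f_e] at h; cases h
  | true =>
    simp at hn
    rw [hn, show e u + 1 + 1 = e (u + 1) by rw [e_succ_a (hσ rfl)], f_e]

/-! ## Palindromic factors and desubstitution -/

/-- The factor `f(U..V]` equals its reversal. -/
def Pal (U V : ℕ) : Prop :=
  ∀ i j, U ≤ i → U ≤ j → i + j + 1 = U + V → fibWord i = fibWord j

lemma f_e_sub_a {y : ℕ} (h : fibWord y = .a) : fibWord (e (y + 1) - 1) = .b := by
  rw [e_succ_a h, show e y + 2 - 1 = e y + 1 by omega, f_e_one h]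

lemma f_e_sub_b {y : ℕ} (h : fibWord y = .b) : fibWord (e (y + 1) - 1) = .a := by
  rw [e_succ_b h, show e y + 1 - 1 = e y by omega, f_e]

lemma f_e_one_b {x : ℕ} (h : fibWord x = .b) : fibWord (e x + 1) = .a := by
  rw [← e_succ_b h, f_e]

lemma core_step {u v x y : ℕ} (h : Pal (e u) (e v + 1)) (hx : u ≤ x) (hy : u ≤ y)
    (hs : e x + e (y + 1) = e u + e v) : fibWord x = fibWord y := by
  have h1 := e_strictMono.monotone hx
  have h2 := e_strictMono.monotone hy
  have h3 := e_lt_succ y
  have h4 := h (e x + 1) (e (y + 1) - 1) (by omega) (by omega) (by omega)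
  rcases letter_cases (fibWord x) with hx' | hx' <;>
    rcases letter_cases (fibWord y) with hy' | hy'
  · rw [hx', hy']
  · rw [f_e_one hx', f_e_sub_b hy'] at h4; cases h4
  · rw [f_e_one_b hx', f_e_sub_a hy'] at h4; cases h4
  · rw [hx', hy']

lemma core_sum {u v : ℕ} (h : Pal (e u) (e v + 1)) (t : ℕ) :
    ∀ y, u ≤ y → t + y = v → e (u + t) + e y = e u + e v := by
  induction t with
  | zero => intro y _ hy; rw [show y = v by omega, add_zero]
  | succ t ih =>
    intro y hy hty
    have h1 := ih (y + 1) (by omega) (by omega)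
    have h2 := core_step h (show u ≤ u + t by omega) hy h1
    rcases letter_cases (fibWord y) with h3 | h3
    · rw [h3] at h2
      rw [e_succ_a h3] at h1
      rw [← add_assoc, e_succ_a h2]
      omega
    · rw [h3] at h2
      rw [e_succ_b h3] at h1
      rw [← add_assoc, e_succ_b h2]
      omega

lemma core {u v : ℕ} (h : Pal (e u) (e v + 1)) : Pal u v := by
  intro i j hi hj hij
  have := core_sum h (i - u) (j + 1) (by omega) (by omega)
  rw [show u + (i - u) = i by omega] at this
  exact core_step h hi hj this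

/-- The relations between two positions that occur when palindromic factors are
desubstituted. -/
inductive Rel
  | E
  | A
  | B
  | P
  | Pb
  | Pa

/-- The meaning of the relations. -/
def Holds : Rel → ℕ → ℕ → Prop
  | .E, U, V => U = V
  | .A, U, V => V = U + 1 ∧ fibWord U = .a
  | .B, U, V => V = U + 1 ∧ fibWord U = .b
  | .P, U, V => U < V ∧ Pal U V
  | .Pb, U, V => U < V ∧ Pal U (V - 1) ∧ fibWord (V - 1) = .b
  | .Pa, U, V => U < V ∧ Pal U (V - 1) ∧ fibWord (V - 1) = .a

lemma e_inj {u v : ℕ} (h : e u = e v) : u = v := e_strictMono.injective h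

lemma lt_of_e {u v : ℕ} (h : e u < e v) : u < v := e_strictMono.lt_iff_lt.1 h

lemma e_add_digit {u : ℕ} {σ : Bool} (hσ : σ = true → fibWord u = .a) :
    e u + σ.toNat < e (u + 1) := by
  cases σ with
  | false => simpa using e_lt_succ u
  | true => rw [e_succ_a (hσ rfl)]; simp

lemma digit_le {u v : ℕ} {σ τ : Bool} (hτ : τ = true → fibWord v = .a)
    (h : e u + σ.toNat ≤ e v + τ.toNat) : u ≤ v := by
  by_contra hlt
  have h1 := e_strictMono.monotone (show v + 1 ≤ u by omega)
  have h2 := e_add_digit hτ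
  omega

lemma digit_inj {u v : ℕ} {σ τ : Bool} (hσ : σ = true → fibWord u = .a)
    (hτ : τ = true → fibWord v = .a) (h : e u + σ.toNat = e v + τ.toNat) : u = v ∧ σ = τ := by
  have h1 := digit_le hτ h.le
  have h2 := digit_le hσ h.ge
  have h3 : u = v := by omega
  subst h3
  refine ⟨rfl, ?_⟩
  cases σ <;> cases τ <;> simp_all

/-- The case of the empty digits: `(e u, e v)` palindromic. -/
lemma desub_00 {u v : ℕ} (huv : u < v) (h : Pal (e u) (e v)) :
    Pal u (v - 1) ∧ fibWord (v - 1) = .b := by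
  obtain ⟨w, rfl⟩ : ∃ w, v = w + 1 := ⟨v - 1, by omega⟩
  have h1 := e_strictMono.monotone (show u ≤ w by omega)
  have h2 := e_lt_succ w
  have h3 := h (e u) (e (w + 1) - 1) le_rfl (by omega) (by omega)
  rw [f_e] at h3
  have h4 : fibWord w = .b := by
    rcases letter_cases (fibWord w) with h5 | h5
    · rw [f_e_sub_a h5] at h3; cases h3
    · exact h5
  rw [show w + 1 - 1 = w by omega]
  refine ⟨core ?_, h4⟩
  rwa [← e_succ_b h4]

lemma desub_10 {u v : ℕ} (h : Pal (e u + 1) (e v)) : Pal u v := by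
  apply core
  intro i j hi hj hij
  rcases Nat.eq_or_lt_of_le hi with h1 | h1
  · subst h1
    rw [show j = e v by omega, f_e, f_e]
  · rcases Nat.eq_or_lt_of_le hj with h2 | h2
    · subst h2
      rw [show i = e v by omega, f_e, f_e]
    · exact h i j h1 h2 (by omega)

/-- The possible desubstitutions of the relations, with the two digits. -/
inductive Tr : Rel → Bool → Bool → Rel → Prop
  | E00 : Tr .E false false .E
  | E11 : Tr .E true true .E
  | A01 : Tr .A false true .E
  | A00 : Tr .A false false .B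
  | B10 : Tr .B true false .A
  | P00 : Tr .P false false .Pb
  | P01E : Tr .P false true .E
  | P01 : Tr .P false true .P
  | P10 : Tr .P true false .P
  | Pb00 : Tr .Pb false false .Pa
  | Pb10 : Tr .Pb true false .A
  | Pa01E : Tr .Pa false true .E
  | Pa01 : Tr .Pa false true .Pb
  | Pa11 : Tr .Pa true true .P
  | Pa00 : Tr .Pa false false .B
  | Pa10 : Tr .Pa true false .Pb

lemma desub {R : Rel} {u v : ℕ} {σ τ : Bool} (hσ : σ = true → fibWord u = .a)
    (hτ : τ = true → fibWord v = .a) (h : Holds R (e u + σ.toNat) (e v + τ.toNat)) :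
    ∃ R', Tr R σ τ R' ∧ Holds R' u v := by
  cases R with
  | E =>
    obtain ⟨h1, h2⟩ := digit_inj hσ hτ h
    subst h1 h2
    cases σ with
    | false => exact ⟨.E, .E00, rfl⟩
    | true => exact ⟨.E, .E11, rfl⟩
  | A =>
    obtain ⟨h1, h2⟩ := h
    cases σ with
    | true =>
      simp at h2
      rw [f_e_one (hσ rfl)] at h2; cases h2
    | false =>
      cases τ with
      | true =>
        simp at h1
        exact ⟨.E, .A01, (e_inj h1).symm⟩
      | false =>
        simp at h1
        rcases letter_cases (fibWord u) with h3 | h3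
        · have := f_e_one h3
          rw [← h1, f_e] at this; cases this
        · rw [← e_succ_b h3] at h1
          exact ⟨.B, .A00, e_inj h1, h3⟩
  | B =>
    obtain ⟨h1, h2⟩ := h
    cases σ with
    | false =>
      simp at h2
      rw [f_e] at h2; cases h2
    | true =>
      have h3 := hσ rfl
      cases τ with
      | false =>
        simp at h1
        rw [show e u + 1 + 1 = e u + 2 by omega, ← e_succ_a h3] at h1
        exact ⟨.A, .B10, e_inj h1, h3⟩
      | true =>
        simp at h1
        have := f_e v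
        rw [h1, f_e_one h3] at this; cases this
  | P =>
    obtain ⟨h1, h2⟩ := h
    cases σ <;> cases τ
    · simp at h1 h2
      have h3 := lt_of_e h1
      obtain ⟨h4, h5⟩ := desub_00 h3 h2
      exact ⟨.Pb, .P00, h3, h4, h5⟩
    · simp at h1 h2
      have h3 : u ≤ v := e_strictMono.le_iff_le.1 (by omega)
      have h4 := core h2
      rcases Nat.eq_or_lt_of_le h3 with h5 | h5
      · exact ⟨.E, .P01E, h5⟩
      · exact ⟨.P, .P01, h5, h4⟩
    · simp at h1 h2
      exact ⟨.P, .P10, lt_of_e (by omega), desub_10 h2⟩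
    · simp at h1 h2
      have h3 := h2 (e u + 1) (e v) le_rfl (by omega) (by omega)
      rw [f_e_one (hσ rfl), f_e] at h3; cases h3
  | Pb =>
    obtain ⟨h1, h2, h3⟩ := h
    cases τ with
    | true =>
      simp at h3
      rw [f_e] at h3; cases h3
    | false =>
      simp only [Bool.toNat_false, add_zero] at h1 h2 h3
      have hv : 0 < v := by
        rcases Nat.eq_zero_or_pos v with hv | hv
        · subst hv; rw [e_zero] at h1; omega
        · exact hv
      obtain ⟨w, rfl⟩ : ∃ w, v = w + 1 := ⟨v - 1, by omega⟩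
      have h4 : fibWord w = .a := by
        rcases letter_cases (fibWord w) with h5 | h5
        · exact h5
        · rw [f_e_sub_b h5] at h3; cases h3
      rw [e_succ_a h4] at h1 h2
      rw [show e w + 2 - 1 = e w + 1 by omega] at h2
      cases σ with
      | false =>
        simp at h1 h2
        have h5 : u ≤ w := by
          by_contra hlt
          have := e_strictMono.monotone (show w + 1 ≤ u by omega)
          rw [e_succ_a h4] at this
          omega
        exact ⟨.Pa, .Pb00, by omega, core h2, h4⟩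
      | true =>
        simp at h1 h2
        have h5 : u ≤ w := by
          by_contra hlt
          have := e_strictMono.monotone (show w + 1 ≤ u by omega)
          rw [e_succ_a h4] at this
          omega
        rcases Nat.eq_or_lt_of_le h5 with h6 | h6
        · subst h6
          exact ⟨.A, .Pb10, rfl, h4⟩
        · have h7 := e_strictMono h6
          have h8 := h2 (e u + 1) (e w) le_rfl (by omega) (by omega)
          rw [f_e_one (hσ rfl), f_e] at h8; cases h8
  | Pa =>
    obtain ⟨h1, h2, h3⟩ := h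
    cases τ with
    | true =>
      cases σ with
      | false =>
        simp at h1 h2
        have h3 : u ≤ v := e_strictMono.le_iff_le.1 (by omega)
        rcases Nat.eq_or_lt_of_le h3 with h5 | h5
        · exact ⟨.E, .Pa01E, h5⟩
        · obtain ⟨h6, h7⟩ := desub_00 h5 h2
          exact ⟨.Pb, .Pa01, h5, h6, h7⟩
      | true =>
        simp at h1 h2
        exact ⟨.P, .Pa11, lt_of_e (by omega), desub_10 h2⟩
    | false =>
      simp only [Bool.toNat_false, add_zero] at h1 h2 h3
      have hv : 0 < v := by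
        rcases Nat.eq_zero_or_pos v with hv | hv
        · subst hv; rw [e_zero] at h1; omega
        · exact hv
      obtain ⟨w, rfl⟩ : ∃ w, v = w + 1 := ⟨v - 1, by omega⟩
      have h4 : fibWord w = .b := by
        rcases letter_cases (fibWord w) with h5 | h5
        · rw [f_e_sub_a h5] at h3; cases h3
        · exact h5
      rw [e_succ_b h4] at h1 h2
      rw [show e w + 1 - 1 = e w by omega] at h2
      cases σ with
      | false =>
        simp at h1 h2
        have h5 : u ≤ w := e_strictMono.le_iff_le.1 (by omega)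
        rcases Nat.eq_or_lt_of_le h5 with h6 | h6
        · subst h6
          exact ⟨.B, .Pa00, rfl, h4⟩
        · obtain ⟨_, h7⟩ := desub_00 h6 h2
          have h8 := no_bb h7
          rw [show w - 1 + 1 = w by omega, h4] at h8; cases h8
      | true =>
        simp at h1 h2
        exact ⟨.Pb, .Pa10, by have := lt_of_e (u := u) (v := w) (by omega); omega,
          desub_10 h2, h4⟩

/-! ## The automaton and the potential -/

/-- Transition of the automaton reading Zeckendorf digits, most significant digit first. -/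
def dl (s : Fin 6) (σ : Bool) : Fin 6 :=
  if σ then ![0, 0, 1, 1, 0, 0] s else ![5, 4, 4, 3, 3, 2] s

/-- Output of the automaton. -/
def wt (s : Fin 6) (σ : Bool) : ℤ :=
  if σ then 0 else ![0, 0, 0, 0, 1, 1] s

/-- The table bounding the change of the potential along each relation. -/
def Bd : Rel → Fin 6 → Fin 6 → ℤ
  | .E, s, t => ![![0, 0, 0, 0, -1, -1], ![-1, 0, 0, 0, -1, -1], ![-1, 0, 0, 0, -1, -1],
      ![-2, -1, -1, 0, -1, -2], ![-1, 0, 0, 0, 0, -1], ![0, 0, 0, 0, 0, 0]] s t
  | .A, s, t => ![![9, 9, 9, 9, 9, 9], ![9, 9, 9, 9, 9, 9], ![-1, 0, 0, 1, 0, -1],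
      ![-1, 0, 0, 1, 0, -1], ![-1, 0, 0, 1, 0, -1], ![-1, 0, 0, 1, 0, -1]] s t
  | .B, s, t => ![![-1, 0, 0, 1, 0, -1], ![-1, 0, 0, 1, 0, -1], ![-1, 0, 0, 1, 0, -1],
      ![-1, -1, -1, 0, -1, -1], ![0, 0, 0, 1, 0, 0], ![0, 1, 1, 2, 1, 0]] s t
  | .P, s, t => ![![1, 1, 1, 1, 1, 1], ![1, 1, 1, 1, 1, 1], ![1, 1, 1, 1, 0, 0],
      ![1, 1, 1, 1, 0, 0], ![1, 1, 1, 1, 0, 0], ![1, 1, 1, 1, 0, 0]] s t
  | .Pb, s, t => ![![0, 0, 0, 1, 0, 0], ![0, 0, 0, 1, 0, 0], ![0, 0, 0, 1, 0, 0],
      ![0, 0, 0, 0, 0, 0], ![0, 1, 1, 1, 1, 0], ![0, 1, 1, 2, 1, 0]] s t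
  | .Pa, s, t => ![![0, 1, 1, 2, 1, 0], ![0, 1, 1, 1, 0, 0], ![0, 1, 1, 1, 0, 0],
      ![0, 0, 0, 0, -1, -1], ![1, 1, 1, 1, 0, 0], ![1, 1, 1, 2, 1, 0]] s t

lemma tab {R R' : Rel} {σ τ : Bool} (h : Tr R σ τ R') :
    ∀ s t : Fin 6, (σ = true → 2 ≤ s) → (τ = true → 2 ≤ t) →
      Bd R' s t + wt t τ - wt s σ ≤ Bd R (dl s σ) (dl t τ) := by
  cases h <;> decide

lemma Bd_P : ∀ s t : Fin 6, Bd .P s t ≤ 1 := by decide

/-- `Rep L v s h`: the position `v` is written with `L` digits, the automaton reading them ends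
in state `s`, and its total output is `h`. -/
inductive Rep : ℕ → ℕ → Fin 6 → ℤ → Prop
  | zero : Rep 0 0 3 0
  | step {L u : ℕ} {s : Fin 6} {h : ℤ} (σ : Bool) (hr : Rep L u s h)
      (hσ : σ = true → fibWord u = .a) : Rep (L + 1) (e u + σ.toNat) (dl s σ) (h + wt s σ)

lemma Rep.two_le {L v : ℕ} {s : Fin 6} {h : ℤ} (hr : Rep L v s h) (hv : fibWord v = .a) :
    2 ≤ s := by
  cases hr with
  | zero => decide
  | step σ hr hσ =>
    rename_i s _
    cases σ with
    | false =>
      have h6 : ∀ s : Fin 6, 2 ≤ dl s false := by decide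
      exact h6 _
    | true =>
      simp at hv
      rw [f_e_one (hσ rfl)] at hv; cases hv

/-- The potential changes by at most `Bd R s t` along the relation `R`. -/
theorem key (L : ℕ) : ∀ (R : Rel) (U V : ℕ) (s t : Fin 6) (h h' : ℤ),
    Rep L U s h → Rep L V t h' → Holds R U V → h' - h ≤ Bd R s t := by
  induction L with
  | zero =>
    intro R U V s t h h' hU hV hR
    cases hU
    cases hV
    cases R with
    | E => decide
    | A => exact absurd hR.1 (by omega)
    | B => exact absurd hR.1 (by omega)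
    | P => exact absurd hR.1 (by omega)
    | Pb => exact absurd hR.1 (by omega)
    | Pa => exact absurd hR.1 (by omega)
  | succ L ih =>
    intro R U V s t h h' hU hV hR
    cases hU with
    | step σ hU hσ =>
      cases hV with
      | step τ hV hτ =>
        obtain ⟨R', h1, h2⟩ := desub hσ hτ hR
        have h3 := ih R' _ _ _ _ _ _ hU hV h2
        have h4 := tab h1 _ _ (fun hs => hU.two_le (hσ hs)) (fun ht => hV.two_le (hτ ht))
        linarith

/-- Every position has a representation. -/
lemma exists_rep (n : ℕ) : ∃ L s h, Rep L n s h := by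
  induction n using Nat.strong_induction_on with
  | _ n ih =>
    rcases Nat.eq_zero_or_pos n with hn | hn
    · subst hn; exact ⟨0, 3, 0, .zero⟩
    · obtain ⟨u, σ, h1, h2⟩ := exists_digit n
      have hu : u < n := by
        rcases Nat.eq_zero_or_pos u with h3 | h3
        · omega
        · have h4 : ∀ m, 1 ≤ m → m + 1 ≤ e m := by
            intro m hm
            induction m, hm using Nat.le_induction with
            | base => decide
            | succ m _ ih => have := e_lt_succ m; omega
          have := h4 u h3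
          omega
      obtain ⟨L, s, h, hr⟩ := ih u hu
      rw [h1]
      exact ⟨L + 1, _, _, .step σ hr h2⟩

/-- Smaller positions have representations of the same length. -/
lemma rep_le (L : ℕ) : ∀ (U V : ℕ) (t : Fin 6) (h' : ℤ), Rep L V t h' → U ≤ V →
    ∃ s h, Rep L U s h := by
  induction L with
  | zero =>
    intro U V t h' hV hUV
    cases hV
    rw [show U = 0 by omega]
    exact ⟨3, 0, .zero⟩
  | succ L ih =>
    intro U V t h' hV hUV
    cases hV with
    | step τ hV hτ =>
      obtain ⟨u, σ, h1, h2⟩ := exists_digit U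
      rw [h1] at hUV
      obtain ⟨s, h, hr⟩ := ih u _ _ _ hV (digit_le hτ hUV)
      rw [h1]
      exact ⟨_, _, .step σ hr h2⟩

lemma rep_zero (L : ℕ) : Rep L 0 3 0 := by
  induction L with
  | zero => exact .zero
  | succ L ih =>
    have := Rep.step false ih (by simp)
    simpa [e_zero, dl, wt] using this

lemma rep_zero_unique (L : ℕ) : ∀ (s : Fin 6) (h : ℤ), Rep L 0 s h → h = 0 := by
  intro s h hr
  have h1 := key L .E 0 0 3 s 0 h (rep_zero L) hr rfl
  have h2 := key L .E 0 0 s 3 h 0 hr (rep_zero L) rfl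
  have h3 : ∀ s : Fin 6, Bd .E 3 s ≤ 0 := by decide
  have h4 : ∀ s : Fin 6, Bd .E s 3 ≤ 0 := by decide
  have := h3 s
  have := h4 s
  omega

/-! ## The lower bound for the prefix palindromic length -/

/-- The factor of length `k` starting after position `U`. -/
def seg (U k : ℕ) : List Letter := (List.range' U k).map fibWord

lemma seg_length (U k : ℕ) : (seg U k).length = k := by simp [seg]

lemma seg_add (U k l : ℕ) : seg U (k + l) = seg U k ++ seg (U + k) l := by
  unfold seg
  rw [← List.map_append, ← List.range'_append_1]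

lemma pre_eq_seg (n : ℕ) : pre fibWord n = seg 0 n := by
  simp [pre, seg, List.range_eq_range']

lemma seg_getElem (U k i : ℕ) (h : i < (seg U k).length) : (seg U k)[i] = fibWord (U + i) := by
  simp [seg]

lemma pal_of_reverse {U k : ℕ} (h : (seg U k).reverse = seg U k) : Pal U (U + k) := by
  intro i j hi hj hij
  obtain ⟨i', rfl⟩ : ∃ i', i = U + i' := ⟨i - U, by omega⟩
  obtain ⟨j', rfl⟩ : ∃ j', j = U + j' := ⟨j - U, by omega⟩
  have h1 : i' < (seg U k).length := by rw [seg_length]; omega
  have h2 : j' < (seg U k).length := by rw [seg_length]; omega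
  have h3 : i' < (seg U k).reverse.length := by rw [List.length_reverse]; exact h1
  rw [← seg_getElem U k i' h1, ← seg_getElem U k j' h2]
  have h4 : (seg U k).reverse[i'] = (seg U k)[i'] := by
    congr 1
  rw [← h4, List.getElem_reverse]
  congr 1
  rw [seg_length]
  omega

lemma reverse_of_pal {U k : ℕ} (h : Pal U (U + k)) : (seg U k).reverse = seg U k := by
  apply List.ext_getElem
  · simp
  · intro i h1 h2
    rw [List.getElem_reverse, seg_getElem, seg_getElem]
    rw [seg_length] at *
    apply h <;> omega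

theorem lower_aux (L : ℕ) : ∀ (ps : List (List Letter)) (U k : ℕ) (s t : Fin 6) (h h' : ℤ),
    (∀ p ∈ ps, IsPal p) → ps.flatten = seg U k → Rep L U s h → Rep L (U + k) t h' →
    h' ≤ h + ps.length := by
  intro ps
  induction ps with
  | nil =>
    intro U k s t h h' _ hf hU hV
    have hk : k = 0 := by
      have := congrArg List.length hf
      rw [seg_length] at this
      simpa using this.symm
    subst hk
    have := key L .E U U s t h h' hU hV rfl
    have h4 := key L .E U U t s h' h hV hU rfl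
    have h3 : ∀ s t : Fin 6, Bd .E s t ≤ 0 := by decide
    have := h3 s t
    simp
    linarith
  | cons p ps ih =>
    intro U k s t h h' hp hf hU hV
    have hlen : p.length ≤ k := by
      have := congrArg List.length hf
      rw [seg_length, List.flatten_cons, List.length_append] at this
      omega
    obtain ⟨l, rfl⟩ : ∃ l, k = p.length + l := ⟨k - p.length, by omega⟩
    rw [List.flatten_cons, seg_add] at hf
    have h1 := List.append_inj hf (by rw [seg_length])
    obtain ⟨t1, g, hg⟩ := rep_le L (U + p.length) (U + (p.length + l)) t h' hV (by omega)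
    have hpal := hp p (by simp)
    have hpos : 0 < p.length := List.length_pos_iff.2 hpal.1
    have h2 : Pal U (U + p.length) := by
      apply pal_of_reverse
      have h4 := hpal.2
      rwa [h1.1] at h4
    have h3 := key L .P U (U + p.length) s t1 h g hU hg ⟨by omega, h2⟩
    have h5 := Bd_P s t1
    have h6 := ih (U + p.length) l t1 t g h' (fun q hq => hp q (by simp [hq])) h1.2 hg
      (by rwa [show U + p.length + l = U + (p.length + l) by omega])
    rw [List.length_cons]
    push_cast
    linarith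

lemma dec_nonempty (u : ℕ → Letter) (n : ℕ) : ∃ ps : List (List Letter),
    ps.length = n ∧ (∀ p ∈ ps, IsPal p) ∧ ps.flatten = pre u n := by
  induction n with
  | zero => exact ⟨[], rfl, by simp, by simp [pre]⟩
  | succ n ih =>
    obtain ⟨ps, h1, h2, h3⟩ := ih
    refine ⟨ps ++ [[u n]], by simp [h1], ?_, by simp [h3, pre_succ]⟩
    intro p hp
    rw [List.mem_append, List.mem_singleton] at hp
    rcases hp with hp | hp
    · exact h2 p hp
    · subst hp; exact ⟨by simp, by simp⟩

lemma PPL_spec (u : ℕ → Letter) (n : ℕ) : ∃ ps : List (List Letter),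
    ps.length = PPL u n ∧ (∀ p ∈ ps, IsPal p) ∧ ps.flatten = pre u n := by
  have : PPL u n ∈ {k | ∃ ps : List (List Letter), ps.length = k ∧ (∀ p ∈ ps, IsPal p) ∧
      ps.flatten = pre u n} := Nat.sInf_mem ⟨n, dec_nonempty u n⟩
  exact this

lemma PPL_le {u : ℕ → Letter} {n k : ℕ} {ps : List (List Letter)} (h1 : ps.length = k)
    (h2 : ∀ p ∈ ps, IsPal p) (h3 : ps.flatten = pre u n) : PPL u n ≤ k :=
  Nat.sInf_le ⟨ps, h1, h2, h3⟩

/-- The prefix palindromic length is at least the output of the automaton. -/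
theorem PPL_ge {L n : ℕ} {s : Fin 6} {h : ℤ} (hr : Rep L n s h) : h ≤ PPL fibWord n := by
  obtain ⟨ps, h1, h2, h3⟩ := PPL_spec fibWord n
  rw [pre_eq_seg] at h3
  have := lower_aux L ps 0 n 3 s 0 h h2 h3 (rep_zero L) (by rwa [zero_add])
  rw [h1] at this
  simpa using this

/-- The positions with Zeckendorf digits `100100...100`. -/
def nn : ℕ → ℕ
  | 0 => 0
  | m + 1 => e (e (e (nn m) + 1))

lemma f_nn (m : ℕ) : fibWord (nn m) = .a := by
  cases m with
  | zero => decide
  | succ m => exact f_e _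

lemma rep_nn (m : ℕ) : Rep (3 * m) (nn m) 3 m := by
  induction m with
  | zero => simpa [nn] using Rep.zero
  | succ m ih =>
    have h1 := Rep.step true ih (fun _ => f_nn m)
    have h2 := Rep.step false h1 (by simp)
    have h3 := Rep.step false h2 (by simp)
    have h4 : (((m + 1 : ℕ) : ℤ)) = (m : ℤ) + wt 3 true + wt (dl 3 true) false +
        wt (dl (dl 3 true) false) false := by
      simp [wt, dl]
    rw [h4]
    exact h3

lemma le_PPL_nn (m : ℕ) : m ≤ PPL fibWord (nn m) := by
  exact_mod_cast PPL_ge (rep_nn m)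

lemma e_fib (k : ℕ) : e (Nat.fib (k + 2)) = Nat.fib (k + 3) := by
  unfold e
  rw [pre_W, ← W_succ, W_length]

lemma e_lt_fib {n k : ℕ} (h : n < Nat.fib (k + 2)) : e n < Nat.fib (k + 3) := by
  rw [← e_fib]
  exact e_strictMono h

lemma nn_lt (m : ℕ) : nn m < Nat.fib (3 * m + 2) := by
  induction m with
  | zero => decide
  | succ m ih =>
    have h1 : e (nn m) + 1 < Nat.fib (3 * m + 3) := by
      have h2 := e_succ_a (f_nn m)
      have h3 : e (nn m + 1) ≤ Nat.fib (3 * m + 3) := by
        rw [← e_fib]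
        exact e_strictMono.monotone ih
      omega
    have h4 := e_lt_fib (k := 3 * m + 1) h1
    have h5 := e_lt_fib (k := 3 * m + 2) h4
    exact h5

/-! ## The upper bound -/

lemma shift_B (k i : ℕ) (h : i < Nat.fib (k + 2)) :
    fibWord (Nat.fib (k + 3) + i) = fibWord i := by
  have h1 : Nat.fib (k + 3) + i < Nat.fib (k + 4) := by
    have : Nat.fib (k + 4) = Nat.fib (k + 2) + Nat.fib (k + 3) := Nat.fib_add_two
    omega
  rw [← W_getD (k := k + 2) h1, W_add_two]
  have h2 : (W (k + 1)).length = Nat.fib (k + 3) := W_length (k + 1)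
  rw [List.getD_append_right _ _ _ _ (by rw [h2]; omega), h2,
    show Nat.fib (k + 3) + i - Nat.fib (k + 3) = i by omega, W_getD h]

/-- `f(F_k + i) = f(i)` for `i < F_{k+1} - 2`. -/
lemma shift_A (k : ℕ) : ∀ i, i + 2 < Nat.fib (k + 3) →
    fibWord (Nat.fib (k + 2) + i) = fibWord i := by
  induction k with
  | zero =>
    intro i hi
    exact absurd hi (by simp [Nat.fib])
  | succ k ih =>
    intro i hi
    have hf : Nat.fib (k + 4) = Nat.fib (k + 2) + Nat.fib (k + 3) := Nat.fib_add_two
    rcases lt_or_ge i (Nat.fib (k + 2)) with h1 | h1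
    · exact shift_B k i h1
    · obtain ⟨j, rfl⟩ : ∃ j, i = Nat.fib (k + 2) + j := ⟨i - Nat.fib (k + 2), by omega⟩
      have h2 : j + 2 < Nat.fib (k + 3) := by
        have : k + 1 + 3 = k + 4 := rfl
        rw [this, hf] at hi
        omega
      rw [ih j h2]
      have h3 : Nat.fib (k + 1 + 2) + (Nat.fib (k + 2) + j) = Nat.fib (k + 4) + j := by
        rw [hf]; show Nat.fib (k + 3) + _ = _; ring
      rw [h3]
      exact shift_B (k + 1) j (by show j < Nat.fib (k + 3); omega)

/-- The word of the first `F_k - 2` letters is a palindrome. -/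
lemma pal_aux (k : ℕ) : (∀ i j, i + j + 3 = Nat.fib (k + 3) → fibWord i = fibWord j) ∧
    (∀ i j, i + j + 3 = Nat.fib (k + 4) → fibWord i = fibWord j) := by
  induction k with
  | zero =>
    refine ⟨fun i j h => absurd h (by simp [Nat.fib]), fun i j h => ?_⟩
    have h4 : Nat.fib 4 = 3 := rfl
    rw [show 0 + 4 = 4 from rfl, h4] at h
    rw [show i = 0 by omega, show j = 0 by omega]
  | succ k ih =>
    obtain ⟨h1, h2⟩ := ih
    refine ⟨h2, ?_⟩
    have key2 : ∀ i j, Nat.fib (k + 3) ≤ j → i + j + 3 = Nat.fib (k + 1 + 4) →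
        fibWord i = fibWord j := by
      intro i j hj hij
      have hf : Nat.fib (k + 5) = Nat.fib (k + 3) + Nat.fib (k + 4) := Nat.fib_add_two
      rw [show k + 1 + 4 = k + 5 from rfl] at hij
      obtain ⟨j', rfl⟩ : ∃ j', j = Nat.fib (k + 3) + j' := ⟨j - Nat.fib (k + 3), by omega⟩
      rw [h2 i j' (by omega)]
      exact (shift_A (k + 1) j' (by show j' + 2 < Nat.fib (k + 4); omega)).symm
    intro i j hij
    rcases le_or_gt (Nat.fib (k + 3)) j with h3 | h3
    · exact key2 i j h3 hij
    · rcases le_or_gt (Nat.fib (k + 3)) i with h4 | h4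
      · exact (key2 j i h4 (by omega)).symm
      · have hf : Nat.fib (k + 5) = Nat.fib (k + 3) + Nat.fib (k + 4) := Nat.fib_add_two
        have hf2 : Nat.fib (k + 4) = Nat.fib (k + 2) + Nat.fib (k + 3) := Nat.fib_add_two
        rw [show k + 1 + 4 = k + 5 from rfl] at hij
        have h5 : Nat.fib (k + 2) ≤ 1 := by omega
        have h6 : k = 0 := by
          by_contra hk
          have := Nat.fib_mono (show 3 ≤ k + 2 by omega)
          have h7 : Nat.fib 3 = 2 := rfl
          omega
        subst h6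
        have h7 : Nat.fib 3 = 2 := rfl
        rw [show 0 + 3 = 3 from rfl, h7] at h3 h4
        have h8 : Nat.fib 5 = 5 := rfl
        rw [show 0 + 5 = 5 from rfl, h8] at hij
        rw [show i = 1 by omega, show j = 1 by omega]

lemma pal_pi (k : ℕ) {i j : ℕ} (h : i + j + 3 = Nat.fib (k + 3)) :
    fibWord i = fibWord j := (pal_aux k).1 i j h

lemma PPL_pal {n m : ℕ} (hnm : n < m) (h : Pal n m) :
    PPL fibWord m ≤ PPL fibWord n + 1 := by
  obtain ⟨ps, h1, h2, h3⟩ := PPL_spec fibWord n
  obtain ⟨k, rfl⟩ : ∃ k, m = n + k := ⟨m - n, by omega⟩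
  refine PPL_le (ps := ps ++ [seg n k]) (by simp [h1]) ?_ ?_
  · intro p hp
    rw [List.mem_append, List.mem_singleton] at hp
    rcases hp with hp | hp
    · exact h2 p hp
    · subst hp
      refine ⟨?_, reverse_of_pal h⟩
      intro h4
      have := seg_length n k
      rw [h4] at this
      simp at this
      omega
  · rw [List.flatten_append, h3]
    simp [pre_eq_seg, seg_add]

lemma PPL_succ_le (n : ℕ) : PPL fibWord (n + 1) ≤ PPL fibWord n + 1 := by
  apply PPL_pal (by omega)
  intro i j hi hj hij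
  rw [show i = n by omega, show j = n by omega]

lemma PPL_zero : PPL fibWord 0 = 0 := by
  have := PPL_le (u := fibWord) (n := 0) (k := 0) (ps := []) rfl (by simp) (by simp [pre])
  omega

lemma PPL_le_self (n : ℕ) : PPL fibWord n ≤ n := by
  induction n with
  | zero => rw [PPL_zero]
  | succ n ih => have := PPL_succ_le n; omega

/-- Concatenation with a shifted copy of the beginning of the word. -/
lemma PPL_shift {n m : ℕ} (h : ∀ i, i < m → fibWord (n + i) = fibWord i) :
    PPL fibWord (n + m) ≤ PPL fibWord n + PPL fibWord m := by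
  obtain ⟨ps, h1, h2, h3⟩ := PPL_spec fibWord n
  obtain ⟨qs, g1, g2, g3⟩ := PPL_spec fibWord m
  refine PPL_le (ps := ps ++ qs) (by simp [h1, g1]) ?_ ?_
  · intro p hp
    rw [List.mem_append] at hp
    rcases hp with hp | hp
    · exact h2 p hp
    · exact g2 p hp
  · rw [List.flatten_append, h3, g3, pre_eq_seg, pre_eq_seg, pre_eq_seg, seg_add]
    congr 1
    apply List.ext_getElem
    · simp [seg_length]
    · intro i h4 h5
      rw [seg_getElem, seg_getElem]
      rw [seg_length] at h4
      rw [zero_add, zero_add, h i h4]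

lemma two_le_fib (k : ℕ) : 2 ≤ Nat.fib (k + 3) := by
  have := Nat.fib_mono (show 3 ≤ k + 3 by omega)
  exact this

lemma PPL_fib_sub_two (k : ℕ) : PPL fibWord (Nat.fib (k + 3) - 2) ≤ 1 := by
  have h := two_le_fib k
  rcases Nat.eq_zero_or_pos (Nat.fib (k + 3) - 2) with h1 | h1
  · rw [h1, PPL_zero]; omega
  · have := PPL_pal h1 (fun i j _ _ hij => pal_pi k (by omega))
    rw [PPL_zero] at this
    omega

lemma PPL_fib_sub_one (k : ℕ) : PPL fibWord (Nat.fib (k + 3) - 1) ≤ 2 := by
  have h := two_le_fib k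
  have h1 := PPL_fib_sub_two k
  have h2 := PPL_succ_le (Nat.fib (k + 3) - 2)
  rw [show Nat.fib (k + 3) - 2 + 1 = Nat.fib (k + 3) - 1 by omega] at h2
  omega

lemma PPL_fib (k : ℕ) : PPL fibWord (Nat.fib (k + 3)) ≤ 3 := by
  have h := two_le_fib k
  have h1 := PPL_fib_sub_one k
  have h2 := PPL_succ_le (Nat.fib (k + 3) - 1)
  rw [show Nat.fib (k + 3) - 1 + 1 = Nat.fib (k + 3) by omega] at h2
  omega

lemma PPL_fib_add (k m : ℕ) (h : m + 1 < Nat.fib (k + 4)) :
    PPL fibWord (Nat.fib (k + 3) + m) ≤ 3 + PPL fibWord m := by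
  have h1 := PPL_fib k
  have h2 := PPL_shift (n := Nat.fib (k + 3)) (m := m) (fun i hi => shift_A (k + 1) i (by
    show i + 2 < Nat.fib (k + 4); omega))
  omega

/-- A move: reflection in the centre of an occurrence of the palindrome of length `F_k - 2` at
position `p`. -/
lemma move {k p N N' : ℕ} (hp : ∀ i, i + 2 < Nat.fib (k + 3) → fibWord (p + i) = fibWord i)
    (h1 : N + N' = 2 * p + Nat.fib (k + 3)) (h2 : p + 1 ≤ N') (h3 : N' < N) :
    PPL fibWord (N - 1) ≤ PPL fibWord (N' - 1) + 1 := by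
  apply PPL_pal (by omega)
  intro i j hi hj hij
  obtain ⟨i', rfl⟩ : ∃ i', i = p + i' := ⟨i - p, by omega⟩
  obtain ⟨j', rfl⟩ : ∃ j', j = p + j' := ⟨j - p, by omega⟩
  rw [hp i' (by omega), hp j' (by omega)]
  exact pal_pi k (by omega)

lemma occ1 (k : ℕ) : ∀ i, i + 2 < Nat.fib (k + 3) → fibWord (0 + i) = fibWord i := by
  intro i _; rw [zero_add]

lemma occ3 (k : ℕ) : ∀ i, i + 2 < Nat.fib (k + 3) →
    fibWord (Nat.fib (k + 4) + Nat.fib (k + 2) + i) = fibWord i := by
  intro i hi
  have h1 : Nat.fib (k + 4) = Nat.fib (k + 2) + Nat.fib (k + 3) := Nat.fib_add_two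
  have h2 : Nat.fib (k + 5) = Nat.fib (k + 3) + Nat.fib (k + 4) := Nat.fib_add_two
  have h3 := shift_A (k + 2) (Nat.fib (k + 2) + i) (by
    show Nat.fib (k + 2) + i + 2 < Nat.fib (k + 5); omega)
  rw [add_assoc]
  rw [show k + 2 + 2 = k + 4 from rfl] at h3
  rw [h3]
  exact shift_A k i hi

lemma occ2 (k : ℕ) : ∀ i, i + 2 < Nat.fib (k + 3) →
    fibWord (Nat.fib (k + 6) + Nat.fib (k + 4) + Nat.fib (k + 2) + i) = fibWord i := by
  intro i hi
  have h1 : Nat.fib (k + 4) = Nat.fib (k + 2) + Nat.fib (k + 3) := Nat.fib_add_two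
  have h2 : Nat.fib (k + 5) = Nat.fib (k + 3) + Nat.fib (k + 4) := Nat.fib_add_two
  have h4 : Nat.fib (k + 6) = Nat.fib (k + 4) + Nat.fib (k + 5) := Nat.fib_add_two
  have h5 : Nat.fib (k + 7) = Nat.fib (k + 5) + Nat.fib (k + 6) := Nat.fib_add_two
  have h3 := shift_A (k + 4) (Nat.fib (k + 4) + Nat.fib (k + 2) + i) (by
    show Nat.fib (k + 4) + Nat.fib (k + 2) + i + 2 < Nat.fib (k + 7); omega)
  rw [show k + 4 + 2 = k + 6 from rfl] at h3
  rw [show Nat.fib (k + 6) + Nat.fib (k + 4) + Nat.fib (k + 2) + i =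
    Nat.fib (k + 6) + (Nat.fib (k + 4) + Nat.fib (k + 2) + i) by ring, h3]
  exact occ3 k i hi

/-- The sets on which the upper bound is proved by induction. -/
def InS (t N : ℕ) : Prop :=
  1 ≤ N ∧ (N < Nat.fib (t + 8) + Nat.fib (t + 4) ∨
    (Nat.fib (t + 9) < N + Nat.fib (t + 5) ∧ N < Nat.fib (t + 9)) ∨
    (Nat.fib (t + 10) < N + Nat.fib (t + 5) ∧ N < Nat.fib (t + 10)) ∨
    (Nat.fib (t + 11) < N + Nat.fib (t + 5) ∧ N < Nat.fib (t + 11)))

lemma InS_step {t N : ℕ} (hN : InS (t + 3) N) :
    PPL fibWord (N - 1) ≤ 8 ∨ InS t N ∨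
      ∃ N', InS t N' ∧ PPL fibWord (N - 1) ≤ PPL fibWord (N' - 1) + 1 := by
  unfold InS at hN
  rw [show t + 3 + 8 = t + 11 by ring, show t + 3 + 4 = t + 7 by ring,
    show t + 3 + 9 = t + 12 by ring, show t + 3 + 5 = t + 8 by ring,
    show t + 3 + 10 = t + 13 by ring, show t + 3 + 11 = t + 14 by ring] at hN
  have f3 : 2 ≤ Nat.fib (t + 3) := two_le_fib t
  have f4 : 2 ≤ Nat.fib (t + 4) := two_le_fib (t + 1)
  have f5 : Nat.fib (t + 5) = Nat.fib (t + 3) + Nat.fib (t + 4) := Nat.fib_add_two
  have f6 : Nat.fib (t + 6) = Nat.fib (t + 4) + Nat.fib (t + 5) := Nat.fib_add_two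
  have f7 : Nat.fib (t + 7) = Nat.fib (t + 5) + Nat.fib (t + 6) := Nat.fib_add_two
  have f8 : Nat.fib (t + 8) = Nat.fib (t + 6) + Nat.fib (t + 7) := Nat.fib_add_two
  have f9 : Nat.fib (t + 9) = Nat.fib (t + 7) + Nat.fib (t + 8) := Nat.fib_add_two
  have f10 : Nat.fib (t + 10) = Nat.fib (t + 8) + Nat.fib (t + 9) := Nat.fib_add_two
  have f11 : Nat.fib (t + 11) = Nat.fib (t + 9) + Nat.fib (t + 10) := Nat.fib_add_two
  have f12 : Nat.fib (t + 12) = Nat.fib (t + 10) + Nat.fib (t + 11) := Nat.fib_add_two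
  have f13 : Nat.fib (t + 13) = Nat.fib (t + 11) + Nat.fib (t + 12) := Nat.fib_add_two
  have f14 : Nat.fib (t + 14) = Nat.fib (t + 12) + Nat.fib (t + 13) := Nat.fib_add_two
  obtain ⟨h1, hN⟩ := hN
  rcases lt_or_ge N (Nat.fib (t + 8) + Nat.fib (t + 4)) with c1 | c1
  · exact Or.inr (Or.inl ⟨h1, Or.inl c1⟩)
  rcases lt_or_ge N (Nat.fib (t + 9)) with c2 | c2
  · refine Or.inr (Or.inr ⟨Nat.fib (t + 9) - N, ⟨by omega, Or.inl (by omega)⟩, ?_⟩)
    exact move (occ1 (t + 6)) (by show _ = 2 * 0 + Nat.fib (t + 9); omega) (by omega) (by omega)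
  rcases lt_or_ge N (Nat.fib (t + 10)) with c3 | c3
  · refine Or.inr (Or.inr ⟨Nat.fib (t + 10) - N, ⟨by omega, Or.inl (by omega)⟩, ?_⟩)
    exact move (occ1 (t + 7)) (by show _ = 2 * 0 + Nat.fib (t + 10); omega) (by omega) (by omega)
  rcases Nat.eq_or_lt_of_le c3 with c4 | c4
  · left
    have := PPL_fib_sub_one (t + 7)
    rw [show t + 7 + 3 = t + 10 from rfl, c4] at this
    omega
  rcases lt_or_ge N (Nat.fib (t + 10) + Nat.fib (t + 5)) with c5 | c5
  · refine Or.inr (Or.inr ⟨Nat.fib (t + 11) - N,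
      ⟨by omega, Or.inr (Or.inl ⟨by omega, by omega⟩)⟩, ?_⟩)
    exact move (occ1 (t + 8)) (by show _ = 2 * 0 + Nat.fib (t + 11); omega) (by omega) (by omega)
  rcases Nat.eq_or_lt_of_le c5 with c6 | c6
  · left
    have h2 := PPL_fib_sub_one (t + 2)
    rw [show t + 2 + 3 = t + 5 from rfl] at h2
    have h3 := PPL_fib_add (t + 7) (Nat.fib (t + 5) - 1) (by
      show _ < Nat.fib (t + 11); omega)
    rw [show t + 7 + 3 = t + 10 from rfl,
      show Nat.fib (t + 10) + (Nat.fib (t + 5) - 1) = N - 1 by omega] at h3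
    omega
  rcases lt_or_ge N (Nat.fib (t + 10) + Nat.fib (t + 6) + Nat.fib (t + 3)) with c7 | c7
  · refine Or.inr (Or.inr ⟨2 * (Nat.fib (t + 9) + Nat.fib (t + 7)) + Nat.fib (t + 8) - N,
      ⟨by omega, Or.inr (Or.inr (Or.inl ⟨by omega, by omega⟩))⟩, ?_⟩)
    exact move (occ3 (t + 5)) (by
      show _ = 2 * (Nat.fib (t + 9) + Nat.fib (t + 7)) + Nat.fib (t + 8); omega)
      (by show Nat.fib (t + 9) + Nat.fib (t + 7) + 1 ≤ _; omega) (by omega)
  rcases Nat.eq_or_lt_of_le c7 with c8 | c8
  · left
    have h2 := PPL_fib_sub_one t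
    have h3 := PPL_fib_add (t + 3) (Nat.fib (t + 3) - 1) (by
      show _ < Nat.fib (t + 7); omega)
    rw [show t + 3 + 3 = t + 6 from rfl] at h3
    have h4 := PPL_fib_add (t + 7) (Nat.fib (t + 6) + (Nat.fib (t + 3) - 1)) (by
      show _ < Nat.fib (t + 11); omega)
    rw [show t + 7 + 3 = t + 10 from rfl,
      show Nat.fib (t + 10) + (Nat.fib (t + 6) + (Nat.fib (t + 3) - 1)) = N - 1 by omega] at h4
    omega
  rcases lt_or_ge N (Nat.fib (t + 11)) with c9 | c9
  · refine Or.inr (Or.inr ⟨Nat.fib (t + 11) - N, ⟨by omega, Or.inl (by omega)⟩, ?_⟩)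
    exact move (occ1 (t + 8)) (by show _ = 2 * 0 + Nat.fib (t + 11); omega) (by omega) (by omega)
  rcases Nat.eq_or_lt_of_le c9 with c10 | c10
  · left
    have := PPL_fib_sub_one (t + 8)
    rw [show t + 8 + 3 = t + 11 from rfl, c10] at this
    omega
  rcases lt_or_ge N (Nat.fib (t + 11) + Nat.fib (t + 5)) with c11 | c11
  · refine Or.inr (Or.inr ⟨Nat.fib (t + 12) - N,
      ⟨by omega, Or.inr (Or.inr (Or.inl ⟨by omega, by omega⟩))⟩, ?_⟩)
    exact move (occ1 (t + 9)) (by show _ = 2 * 0 + Nat.fib (t + 12); omega) (by omega) (by omega)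
  rcases lt_or_ge N (Nat.fib (t + 11) + Nat.fib (t + 6)) with c12 | c12
  · refine Or.inr (Or.inr
      ⟨2 * (Nat.fib (t + 10) + Nat.fib (t + 8) + Nat.fib (t + 6)) + Nat.fib (t + 7) - N,
      ⟨by omega, Or.inr (Or.inr (Or.inr ⟨by omega, by omega⟩))⟩, ?_⟩)
    exact move (occ2 (t + 4)) (by
      show _ = 2 * (Nat.fib (t + 10) + Nat.fib (t + 8) + Nat.fib (t + 6)) + Nat.fib (t + 7)
      omega)
      (by show Nat.fib (t + 10) + Nat.fib (t + 8) + Nat.fib (t + 6) + 1 ≤ _; omega) (by omega)
  rcases Nat.eq_or_lt_of_le c12 with c13 | c13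
  · left
    have h2 := PPL_fib_sub_one (t + 3)
    rw [show t + 3 + 3 = t + 6 from rfl] at h2
    have h3 := PPL_fib_add (t + 8) (Nat.fib (t + 6) - 1) (by
      show _ < Nat.fib (t + 12); omega)
    rw [show t + 8 + 3 = t + 11 from rfl,
      show Nat.fib (t + 11) + (Nat.fib (t + 6) - 1) = N - 1 by omega] at h3
    omega
  rcases hN with hN | hN | hN | hN
  · refine Or.inr (Or.inr ⟨2 * (Nat.fib (t + 10) + Nat.fib (t + 8)) + Nat.fib (t + 9) - N,
      ⟨by omega, Or.inr (Or.inr (Or.inr ⟨by omega, by omega⟩))⟩, ?_⟩)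
    exact move (occ3 (t + 6)) (by
      show _ = 2 * (Nat.fib (t + 10) + Nat.fib (t + 8)) + Nat.fib (t + 9); omega)
      (by show Nat.fib (t + 10) + Nat.fib (t + 8) + 1 ≤ _; omega) (by omega)
  · refine Or.inr (Or.inr ⟨Nat.fib (t + 12) - N, ⟨by omega, Or.inl (by omega)⟩, ?_⟩)
    exact move (occ1 (t + 9)) (by show _ = 2 * 0 + Nat.fib (t + 12); omega) (by omega) (by omega)
  · refine Or.inr (Or.inr ⟨Nat.fib (t + 13) - N, ⟨by omega, Or.inl (by omega)⟩, ?_⟩)
    exact move (occ1 (t + 10)) (by show _ = 2 * 0 + Nat.fib (t + 13); omega) (by omega) (by omega)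
  · refine Or.inr (Or.inr ⟨Nat.fib (t + 14) - N, ⟨by omega, Or.inl (by omega)⟩, ?_⟩)
    exact move (occ1 (t + 11)) (by show _ = 2 * 0 + Nat.fib (t + 14); omega) (by omega) (by omega)

theorem upper_aux (t : ℕ) : ∀ N, InS t N → 3 * PPL fibWord (N - 1) ≤ t + 700 := by
  induction t using Nat.strong_induction_on with
  | _ t ih =>
    intro N hN
    rcases lt_or_ge t 3 with h3 | h3
    · have h1 : N < Nat.fib (t + 11) := by
        have f9 : Nat.fib (t + 9) ≤ Nat.fib (t + 11) := Nat.fib_mono (by omega)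
        have f10 : Nat.fib (t + 10) ≤ Nat.fib (t + 11) := Nat.fib_mono (by omega)
        have f8 : Nat.fib (t + 8) ≤ Nat.fib (t + 9) := Nat.fib_mono (by omega)
        have f4 : Nat.fib (t + 4) ≤ Nat.fib (t + 10) := Nat.fib_mono (by omega)
        have f11 : Nat.fib (t + 11) = Nat.fib (t + 9) + Nat.fib (t + 10) := Nat.fib_add_two
        obtain ⟨_, h | h | h | h⟩ := hN <;> omega
      have h2 : Nat.fib (t + 11) ≤ Nat.fib 13 := Nat.fib_mono (by omega)
      have h4 : Nat.fib 13 = 233 := rfl
      have h5 := PPL_le_self (N - 1)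
      omega
    · obtain ⟨s, rfl⟩ : ∃ s, t = s + 3 := ⟨t - 3, by omega⟩
      rcases InS_step hN with h | h | ⟨N', h, h'⟩
      · omega
      · have := ih s (by omega) N h
        omega
      · have := ih s (by omega) N' h
        omega

theorem upper (k n : ℕ) (h : n < Nat.fib k) : 3 * PPL fibWord n ≤ k + 700 := by
  rcases lt_or_ge k 8 with h8 | h8
  · have h1 : Nat.fib k ≤ Nat.fib 8 := Nat.fib_mono (by omega)
    have h2 : Nat.fib 8 = 21 := rfl
    have h3 := PPL_le_self n
    omega
  · obtain ⟨t, rfl⟩ : ∃ t, k = t + 8 := ⟨k - 8, by omega⟩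
    have h1 : 0 < Nat.fib (t + 4) := Nat.fib_pos.2 (by omega)
    have := upper_aux t (n + 1) ⟨by omega, Or.inl (by omega)⟩
    rw [Nat.add_sub_cancel] at this
    omega

/-! ## The value of `λ` -/

lemma pow_le_fib (n : ℕ) : Real.goldenRatio ^ n ≤ Nat.fib (n + 2) ∧
    Real.goldenRatio ^ (n + 1) ≤ Nat.fib (n + 3) := by
  induction n with
  | zero =>
    refine ⟨by simp, ?_⟩
    have h2 : Nat.fib 3 = 2 := rfl
    rw [show 0 + 3 = 3 from rfl, h2]
    simpa using Real.goldenRatio_lt_two.le
  | succ n ih =>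
    refine ⟨ih.2, ?_⟩
    have h1 : Nat.fib (n + 4) = Nat.fib (n + 2) + Nat.fib (n + 3) := Nat.fib_add_two
    have h2 := Real.goldenRatio_sq
    rw [show n + 1 + 3 = n + 4 from rfl, h1]
    push_cast
    calc Real.goldenRatio ^ (n + 1 + 1) = Real.goldenRatio ^ n * Real.goldenRatio ^ 2 := by ring
      _ = Real.goldenRatio ^ n + Real.goldenRatio ^ (n + 1) := by rw [h2]; ring
      _ ≤ _ := add_le_add ih.1 ih.2

lemma fib_le_pow (n : ℕ) : (Nat.fib (n + 1) : ℝ) ≤ Real.goldenRatio ^ n ∧
    (Nat.fib (n + 2) : ℝ) ≤ Real.goldenRatio ^ (n + 1) := by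
  induction n with
  | zero =>
    refine ⟨by simp, ?_⟩
    simpa using Real.one_lt_goldenRatio.le
  | succ n ih =>
    refine ⟨ih.2, ?_⟩
    have h1 : Nat.fib (n + 3) = Nat.fib (n + 1) + Nat.fib (n + 2) := Nat.fib_add_two
    have h2 := Real.goldenRatio_sq
    rw [show n + 1 + 2 = n + 3 from rfl, h1]
    push_cast
    calc (Nat.fib (n + 1) : ℝ) + Nat.fib (n + 2) ≤
        Real.goldenRatio ^ n + Real.goldenRatio ^ (n + 1) := add_le_add ih.1 ih.2
      _ = Real.goldenRatio ^ n * Real.goldenRatio ^ 2 := by rw [h2]; ring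
      _ = Real.goldenRatio ^ (n + 1 + 1) := by ring

lemma log_pos' : 0 < Real.log Real.goldenRatio := Real.log_pos Real.one_lt_goldenRatio

lemma upper_log {n : ℕ} (hn : 1 ≤ n) :
    3 * (PPL fibWord n : ℝ) ≤ Real.log n / Real.log Real.goldenRatio + 703 := by
  have hL := log_pos'
  set k := Nat.greatestFib n with hk
  have h1 : Nat.fib k ≤ n := Nat.fib_greatestFib_le n
  have h2 : n < Nat.fib (k + 1) := Nat.lt_fib_greatestFib_add_one n
  have h3 : 2 ≤ k := by
    by_contra hlt
    have h4 := Nat.fib_mono (show k + 1 ≤ 2 by omega)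
    have h5 : Nat.fib 2 = 1 := rfl
    omega
  obtain ⟨j, hj⟩ : ∃ j, k = j + 2 := ⟨k - 2, by omega⟩
  have h4 := (pow_le_fib j).1
  rw [← hj] at h4
  have h5 : Real.goldenRatio ^ j ≤ n := h4.trans (by exact_mod_cast h1)
  have h6 : (j : ℝ) * Real.log Real.goldenRatio ≤ Real.log n := by
    rw [← Real.log_pow]
    exact Real.log_le_log (by positivity) h5
  have h7 : (j : ℝ) ≤ Real.log n / Real.log Real.goldenRatio := by
    rwa [le_div_iff₀ hL]
  have h8 := upper (k + 1) n h2
  have h9 : (3 : ℝ) * PPL fibWord n ≤ k + 1 + 700 := by exact_mod_cast h8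
  have h10 : (k : ℝ) = j + 2 := by rw [hj]; push_cast; ring
  linarith

lemma frequently_ge {a : ℝ} (ha : a < 1 / (3 * Real.log Real.goldenRatio)) :
    ∃ᶠ n : ℕ in atTop, a ≤ (PPL fibWord n : ℝ) / Real.log n := by
  have hL := log_pos'
  rw [frequently_atTop]
  intro N
  have h0 : 0 < 1 - 3 * (a * Real.log Real.goldenRatio) := by
    rw [lt_div_iff₀ (by positivity)] at ha
    linarith
  obtain ⟨m0, hm0⟩ := exists_nat_ge
    (a * Real.log Real.goldenRatio / (1 - 3 * (a * Real.log Real.goldenRatio)))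
  set m := max (max m0 N) 2 with hm
  have h1 : m0 ≤ m := (le_max_left _ _).trans (le_max_left _ _)
  have h2 : N ≤ m := (le_max_right _ _).trans (le_max_left _ _)
  have h3 : 2 ≤ m := le_max_right _ _
  have h4 := le_PPL_nn m
  have h5 := PPL_le_self (nn m)
  refine ⟨nn m, by omega, ?_⟩
  have h6 : (1 : ℝ) < nn m := by exact_mod_cast (show 1 < nn m by omega)
  have h7 : 0 < Real.log (nn m) := Real.log_pos h6
  rw [le_div_iff₀ h7]
  have h8 : (nn m : ℝ) ≤ Real.goldenRatio ^ (3 * m + 1) := by
    have := (fib_le_pow (3 * m + 1)).1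
    exact le_trans (by exact_mod_cast (nn_lt m).le) this
  have h9 : Real.log (nn m) ≤ (3 * m + 1) * Real.log Real.goldenRatio := by
    have := Real.log_le_log (by linarith) h8
    rw [Real.log_pow] at this
    push_cast at this
    exact this
  have h10 : (m : ℝ) ≤ PPL fibWord (nn m) := by exact_mod_cast h4
  rcases le_or_gt a 0 with ha0 | ha0
  · have : a * Real.log (nn m) ≤ 0 := mul_nonpos_of_nonpos_of_nonneg ha0 h7.le
    have h11 : (0 : ℝ) ≤ m := by positivity
    linarith
  · have h11 : a * Real.log (nn m) ≤ a * ((3 * m + 1) * Real.log Real.goldenRatio) :=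
      mul_le_mul_of_nonneg_left h9 ha0.le
    rw [div_le_iff₀ h0] at hm0
    have h12 : (m0 : ℝ) ≤ m := by exact_mod_cast h1
    have h13 := mul_le_mul_of_nonneg_right h12 h0.le
    nlinarith

lemma eventually_le {a : ℝ} (ha : 1 / (3 * Real.log Real.goldenRatio) < a) :
    ∀ᶠ n : ℕ in atTop, (PPL fibWord n : ℝ) / Real.log n ≤ a := by
  have hL := log_pos'
  set b := 1 / (3 * Real.log Real.goldenRatio) with hb
  have h1 : Tendsto (fun n : ℕ => Real.log n) atTop atTop :=
    Real.tendsto_log_atTop.comp tendsto_natCast_atTop_atTop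
  filter_upwards [h1.eventually_ge_atTop (703 / 3 / (a - b)), h1.eventually_gt_atTop 0,
    eventually_ge_atTop 1] with n h2 h3 h4
  rw [div_le_iff₀ h3]
  have h5 := upper_log h4
  rw [div_le_iff₀ (by linarith)] at h2
  have h6 : Real.log n / Real.log Real.goldenRatio = 3 * (b * Real.log n) := by
    rw [hb]; field_simp
  rw [h6] at h5
  nlinarith

/-- **The value of `λ`.**  `limsup PPL_f(n) / ln n = 1 / (3 ln φ)` for the Fibonacci word `f`;
more precisely, `max_{n < F_k} PPL_f(n) = k / 3 + O(1)`. -/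
theorem result :
    limsup (fun n : ℕ => (PPL fibWord n : ℝ) / Real.log n) atTop
      = 1 / (3 * Real.log Real.goldenRatio) ∧
    (∃ C : ℕ, ∀ k n : ℕ, n < Nat.fib k → 3 * PPL fibWord n ≤ k + C) ∧
    (∀ m : ℕ, ∃ n : ℕ, n < Nat.fib (3 * m + 2) ∧ m ≤ PPL fibWord n) := by
  refine ⟨?_, ⟨700, upper⟩, fun m => ⟨nn m, nn_lt m, le_PPL_nn m⟩⟩
  have hcob : IsCoboundedUnder (· ≤ ·) atTop
      (fun n : ℕ => (PPL fibWord n : ℝ) / Real.log n) := by
    apply IsBoundedUnder.isCoboundedUnder_le
    refine ⟨0, ?_⟩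
    rw [eventually_map]
    filter_upwards [eventually_ge_atTop 1] with n hn
    exact div_nonneg (by positivity) (Real.log_nonneg (by exact_mod_cast hn))
  have hbdd : IsBoundedUnder (· ≤ ·) atTop
      (fun n : ℕ => (PPL fibWord n : ℝ) / Real.log n) := by
    refine ⟨1 / (3 * Real.log Real.goldenRatio) + 1, ?_⟩
    rw [eventually_map]
    exact eventually_le (by linarith)
  apply le_antisymm
  · apply le_of_forall_gt_imp_ge_of_dense
    intro a ha
    exact limsup_le_of_le hcob (eventually_le ha)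
  · apply le_of_forall_lt_imp_le_of_dense
    intro a ha
    exact le_limsup_of_frequently_le (frequently_ge ha) hbdd

end Pool.Agent.Results.MP_3353e5_co.LambdaValue
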